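import Pool.Agent.W815.LR.Slot
import Pool.Agent.W333.LR.PA
import Pool.Agent.W248.LR.PB
import Pool.Agent.W805.LR.Stm2

/-!
# Number of short cycles: change under a transposition
-/

set_option autoImplicit false
set_option linter.unusedSectionVars false

namespace Pool.Agent.W613.LR

open Finset Equiv Pool.Agent.W805.LR Pool.Agent.W815.LR

section

variable {V : Type} [Fintype V] [DecidableEq V]

theorem len_pos (p : Perm V) (v : V) : 0 < len p v := lt_of_lt_of_le zero_lt_one (one_le_len p v)

theorem len_same {p : Perm V} {u v : V} (h : p.SameCycle u v) : len p u = len p v := by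
  unfold len
  congr 1
  funext z
  exact propext ⟨fun h' => h.symm.trans h', fun h' => h.trans h'⟩

theorem len_eq (p : Perm V) (u : V) : len p u = ∑ v, ind (p.SameCycle u v) := rfl

/-- number of cycles of length less than `s` -/
noncomputable def NS (s : ℝ) (p : Perm V) : ℝ := ∑ v, ind (len p v < s) / len p v

theorem NS_nonneg (s : ℝ) (p : Perm V) : 0 ≤ NS s p :=
  sum_nonneg fun v _ => div_nonneg (ind_nonneg _) (len_pos p v).le

theorem NS_le (s : ℝ) (p : Perm V) : NS s p ≤ Fintype.card V := by
  calc NS s p ≤ ∑ _v : V, (1 : ℝ) := by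
        refine sum_le_sum fun v _ => ?_
        rw [div_le_one (len_pos p v)]
        exact (ind_le_one _).trans (one_le_len p v)
    _ = _ := by simp

/-- the sum over one cycle -/
theorem sum_cycle (s : ℝ) (p : Perm V) (u : V) :
    ∑ v, ind (p.SameCycle u v) * (ind (len p v < s) / len p v) = ind (len p u < s) := by
  have h1 : ∀ v, ind (p.SameCycle u v) * (ind (len p v < s) / len p v) =
      ind (p.SameCycle u v) * (ind (len p u < s) / len p u) := by
    intro v
    by_cases h : p.SameCycle u v
    · rw [len_same h]
    · rw [ind_of_not h, zero_mul, zero_mul]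
  rw [sum_congr rfl fun v _ => h1 v, ← sum_mul, ← len_eq]
  have := (len_pos p u).ne'
  field_simp

theorem NS_merge (hm : S_merge) (s : ℝ) (p : Perm V) {u w : V} (h : ¬ p.SameCycle u w) :
    NS s (swap u w * p) =
      NS s p - ind (len p u < s) - ind (len p w < s) + ind (len p u + len p w < s) := by
  obtain ⟨h1, h2, -⟩ := hm V p u w h
  set p' := swap u w * p with hp'
  have hL : 0 < len p u + len p w := add_pos (len_pos p u) (len_pos p w)
  have h3 : NS s p' - NS s p =
      ∑ v, ((ind (p.SameCycle u v) + ind (p.SameCycle w v)) *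
        (ind (len p u + len p w < s) / (len p u + len p w)) -
        (ind (p.SameCycle u v) * (ind (len p v < s) / len p v) +
          ind (p.SameCycle w v) * (ind (len p v < s) / len p v))) := by
    unfold NS
    rw [← sum_sub_distrib]
    refine sum_congr rfl fun v _ => ?_
    by_cases hu : p.SameCycle u v
    · have hw : ¬ p.SameCycle w v := fun hw => h (hu.trans hw.symm)
      rw [ind_of hu, ind_of_not hw, h1 v (Or.inl hu)]
      ring
    · by_cases hw : p.SameCycle w v
      · rw [ind_of_not hu, ind_of hw, h1 v (Or.inr hw)]
        ring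
      · rw [ind_of_not hu, ind_of_not hw, h2 v hu hw]
        ring
  rw [sum_sub_distrib, ← sum_mul, sum_add_distrib, sum_add_distrib, sum_cycle, sum_cycle,
    ← len_eq, ← len_eq, mul_div_cancel₀ _ hL.ne'] at h3
  linarith

theorem NS_split (hs : S_split) (s : ℝ) (p : Perm V) {u w : V} (hne : u ≠ w)
    (h : p.SameCycle u w) :
    NS s (swap u w * p) =
      NS s p - ind (len p u < s) + ind (len (swap u w * p) u < s) +
        ind (len (swap u w * p) w < s) := by
  obtain ⟨h1, h2, -, h4⟩ := hs V p u w hne h
  set p' := swap u w * p with hp'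
  have hback : ∀ v, (p'.SameCycle u v ∨ p'.SameCycle w v) → p.SameCycle u v := by
    intro v hv
    by_contra hc
    rcases hv with hv | hv
    · exact hc ((h2 v hc u).1 hv.symm).symm
    · exact hc (h.trans ((h2 v hc w).1 hv.symm).symm)
  have h3 : NS s p' - NS s p =
      ∑ v, ((ind (p'.SameCycle u v) * (ind (len p' v < s) / len p' v) +
          ind (p'.SameCycle w v) * (ind (len p' v < s) / len p' v)) -
        ind (p.SameCycle u v) * (ind (len p v < s) / len p v)) := by
    unfold NS
    rw [← sum_sub_distrib]
    refine sum_congr rfl fun v _ => ?_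
    by_cases hu : p.SameCycle u v
    · rw [ind_of hu]
      rcases h4 v hu with h5 | h5
      · have h6 : ¬ p'.SameCycle w v := fun h6 => h1 (h5.trans h6.symm)
        rw [ind_of h5, ind_of_not h6]
        ring
      · have h6 : ¬ p'.SameCycle u v := fun h6 => h1 (h6.trans h5.symm)
        rw [ind_of h5, ind_of_not h6]
        ring
    · have h5 : ¬ p'.SameCycle u v := fun h5 => hu (hback v (Or.inl h5))
      have h6 : ¬ p'.SameCycle w v := fun h6 => hu (hback v (Or.inr h6))
      have h7 : len p' v = len p v := by
        unfold len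
        congr 1
        funext z
        exact propext (h2 v hu z)
      rw [ind_of_not hu, ind_of_not h5, ind_of_not h6, h7]
      ring
  rw [sum_sub_distrib, sum_add_distrib, sum_cycle, sum_cycle, sum_cycle] at h3
  linarith

/-- change of the number of short cycles -/
theorem NS_change (hm : S_merge) (hs : S_split) (hd : S_damage) {s : ℝ} (hs0 : 0 ≤ s)
    (p : Perm V) {u w : V} (hne : u ≠ w) :
    ind (len p u < s ∧ ¬ p.SameCycle u w) -
        (ind (len p u < s ∧ p.SameCycle u w) + 2 * ind (near p s u w)) ≤
      NS s p - NS s (swap u w * p) := by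
  by_cases h : p.SameCycle u w
  · rw [NS_split hs s p hne h, ind_of_not (fun h' : len p u < s ∧ ¬ p.SameCycle u w => h'.2 h)]
    have e0 := ind_nonneg (near p s u w)
    by_cases hl : len p u < s
    · rw [ind_of (⟨hl, h⟩ : len p u < s ∧ p.SameCycle u w), ind_of hl]
      have e1 := ind_le_one (len (swap u w * p) u < s)
      have e2 := ind_le_one (len (swap u w * p) w < s)
      linarith
    · rw [ind_of_not (fun h' : len p u < s ∧ p.SameCycle u w => hl h'.1), ind_of_not hl]
      have h5 := (hd V p u w s hs0).2
      have e1 : ind (len (swap u w * p) u < s) ≤ ind (near p s u w) :=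
        ind_mono fun h6 => h5 u (not_lt.1 hl) h6
      have e2 : ind (len (swap u w * p) w < s) ≤ ind (near p s u w) :=
        ind_mono fun h6 => h5 w (by rw [← len_same h]; exact not_lt.1 hl) h6
      linarith
  · rw [NS_merge hm s p h, ind_of_not (fun h' : len p u < s ∧ p.SameCycle u w => h h'.2)]
    have e0 := ind_nonneg (near p s u w)
    have e1 : ind (len p u + len p w < s) ≤ ind (len p w < s) :=
      ind_mono fun h6 => by have := len_pos p u; linarith
    have e2 : ind (len p u < s ∧ ¬ p.SameCycle u w) ≤ ind (len p u < s) := ind_mono fun h6 => h6.1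
    linarith

end

end Pool.Agent.W613.LR
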