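import Pool.Agent.W613.LR.Cyc

/-!
# LR2-SB2: the base lemma by counting short cycles
-/

set_option autoImplicit false
set_option linter.unusedSectionVars false

namespace Pool.Agent.W613.LR.SB2

open Finset Equiv Pool.Agent.W805.LR Pool.Agent.W815.LR Pool.Agent.W613.LR

section

variable {V K ι : Type} [Fintype V] [DecidableEq V] [Fintype K] [DecidableEq K] [DecidableEq ι]
  {Θ : ℝ} {W : (K → Option (V × V)) → ℝ} {w : V → V → ℝ} {M : ℕ} {a : Fin M → K}
  {g : ℕ → (K → Option (V × V)) → Perm V} {c : Fin M → (K → Option (V × V)) → Perm V}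

theorem sum_near (hn : S_near) {s : ℝ} (hs : 0 ≤ s) (p : Perm V) :
    ∑ u, ∑ v, ind (near p s u v) ≤ Fintype.card V * (2 * s) := by
  calc ∑ u, ∑ v, ind (near p s u v) ≤ ∑ _u : V, 2 * s :=
        sum_le_sum fun u _ => hn V p s u hs
    _ = _ := by rw [sum_const, card_univ, nsmul_eq_mul]

theorem sum_same {s : ℝ} (hs : 0 ≤ s) (p : Perm V) :
    ∑ u, ∑ v, ind (len p u < s ∧ p.SameCycle u v) ≤ Fintype.card V * s := by
  calc ∑ u, ∑ v, ind (len p u < s ∧ p.SameCycle u v) ≤ ∑ _u : V, s := by
        refine sum_le_sum fun u _ => ?_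
        by_cases h : len p u < s
        · refine le_trans ?_ h.le
          rw [len_eq]
          exact sum_le_sum fun v _ => ind_mono fun h' => h'.2
        · refine le_trans (le_of_eq ?_) hs
          exact sum_eq_zero fun v _ => ind_of_not fun h' => h h'.1
    _ = _ := by rw [sum_const, card_univ, nsmul_eq_mul]

theorem sum_conj (q : Perm V) (f : V → V → ℝ) :
    ∑ x, ∑ y, f (q x) (q y) = ∑ u, ∑ v, f u v := by
  rw [← Equiv.sum_comp q (fun u => ∑ v, f u v)]
  refine sum_congr rfl fun x _ => ?_
  rw [← Equiv.sum_comp q (fun v => f (q x) v)]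

/-- one step -/
theorem step_bound (hm : S_merge) (hsp : S_split) (hd : S_damage) (hn : S_near)
    (h : IsStage Θ W w (fun _ : V => ()) M a g c) (hΘ : 1 ≤ Θ) {s κ b : ℝ} {blk : V → ι}
    (hs : 0 < s) (hκ : 0 < κ) (hb : 0 < b) (hsb : 2 * s ≤ b)
    (hw : ∀ x y, w x y = if x ≠ y ∧ blk x = blk y then κ else 0)
    (hbl : ∀ v, b ≤ cnt fun u => blk u = blk v)
    (hrate : (Θ * ∑ x, ∑ y, w x y) ≤ 1) (i : Fin M) :
    κ * b / (4 * Θ) * ev W (fun ω => cnt fun v => len (g i.val ω) v < s) ≤
      ev W (fun ω => NS s (g i.val ω) - NS s (g (i.val + 1) ω)) +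
        5 * Θ * κ * s * Fintype.card V * ev W (fun _ => 1) := by
  have hΘ0 : 0 < Θ := by linarith
  set P : V → V → (K → Option (V × V)) → ℝ := fun x y ω =>
    ind (x ≠ y ∧ blk x = blk y) *
      ind (len (g i.val ω) (c i ω x) < s ∧ ¬ (g i.val ω).SameCycle (c i ω x) (c i ω y)) with hP
  set Q : V → V → (K → Option (V × V)) → ℝ := fun x y ω =>
    ind (x ≠ y ∧ blk x = blk y) *
      (ind (len (g i.val ω) (c i ω x) < s ∧ (g i.val ω).SameCycle (c i ω x) (c i ω y)) +
      2 * ind (near (g i.val ω) s (c i ω x) (c i ω y))) with hQ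
  have hP0 : ∀ x y ω, 0 ≤ P x y ω := fun x y ω => mul_nonneg (ind_nonneg _) (ind_nonneg _)
  have hQ0 : ∀ x y ω, 0 ≤ Q x y ω := fun x y ω => mul_nonneg (ind_nonneg _)
    (add_nonneg (ind_nonneg _) (mul_nonneg (by norm_num) (ind_nonneg _)))
  have hPi : ∀ x y ω o, P x y (Function.update ω (a i) o) = P x y ω := by
    intro x y ω o
    simp only [hP]
    rw [h.g_indep i i.val le_rfl, h.c_indep]
  have hQi : ∀ x y ω o, Q x y (Function.update ω (a i) o) = Q x y ω := by
    intro x y ω o
    simp only [hQ]
    rw [h.g_indep i i.val le_rfl, h.c_indep]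
  -- A
  have hA : ev W (slotF (a i) P) - ev W (slotF (a i) Q) ≤
      ev W (fun ω => NS s (g i.val ω) - NS s (g (i.val + 1) ω)) := by
    rw [← ev_sub]
    refine ev_mono h.W_nonneg fun ω hW => ?_
    rcases ho : ω (a i) with _ | ⟨x, y⟩
    · rw [slotF_none ho, slotF_none ho, step_none h i ho]
      simp
    · rw [slotF_some ho, slotF_some ho, step_some h i ho]
      have hup := h.up i ω x y
      rw [← ho, Function.update_eq_self] at hup
      have hpos : 0 < W ω := lt_of_le_of_ne (h.W_nonneg ω) (Ne.symm hW)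
      have hw0 : w x y ≠ 0 := by
        intro h0
        rw [h0] at hup
        simp at hup
        linarith
      have hxy : x ≠ y ∧ blk x = blk y := by
        by_contra hcon
        exact hw0 (by rw [hw, if_neg hcon])
      simp only [hP, hQ]
      rw [ind_of hxy, one_mul, one_mul]
      exact NS_change hm hsp hd hs.le (g i.val ω) fun e => hxy.1 ((c i ω).injective e)
  -- B
  have hB1 : ∑ x, ∑ y, w x y * evn (a i) W (P x y) ≤ Θ * ev W (slotF (a i) P) :=
    slot_low (h.low i) P hP0 hPi
  have hB2 : ev W (slotF (a i) Q) ≤ Θ * ∑ x, ∑ y, w x y * evn (a i) W (Q x y) :=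
    slot_up (h.up i) Q hQ0 hQi
  -- C
  have hsumP : ∑ x, ∑ y, w x y * evn (a i) W (P x y) =
      evn (a i) W (fun ω => ∑ x, ∑ y, w x y * P x y ω) := by
    rw [evn_sum]
    refine sum_congr rfl fun x _ => ?_
    rw [evn_sum]
    exact sum_congr rfl fun y _ => (evn_const_mul _ _).symm
  have hsumQ : ∑ x, ∑ y, w x y * evn (a i) W (Q x y) =
      evn (a i) W (fun ω => ∑ x, ∑ y, w x y * Q x y ω) := by
    rw [evn_sum]
    refine sum_congr rfl fun x _ => ?_
    rw [evn_sum]
    exact sum_congr rfl fun y _ => (evn_const_mul _ _).symm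
  -- lower bound
  have hC1 : evn (a i) W (fun ω => κ * (b / 2) * cnt fun v => len (g i.val ω) v < s) ≤
      evn (a i) W (fun ω => ∑ x, ∑ y, w x y * P x y ω) := by
    refine evn_mono h.W_nonneg fun ω _ => ?_
    have e1 : (cnt fun v => len (g i.val ω) v < s) =
        ∑ x, ind (len (g i.val ω) (c i ω x) < s) := by
      rw [cnt_ind, ← Equiv.sum_comp (c i ω)]
    rw [e1, mul_sum]
    refine sum_le_sum fun x _ => ?_
    by_cases hx : len (g i.val ω) (c i ω x) < s
    · rw [ind_of hx, mul_one]
      have e2 : len (g i.val ω) (c i ω x) =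
          ∑ y, ind ((g i.val ω).SameCycle (c i ω x) (c i ω y)) := by
        rw [len_eq, ← Equiv.sum_comp (c i ω)]
      have e3 : (cnt fun u => blk u = blk x) ≤
          ∑ y, ind (x ≠ y ∧ blk x = blk y) *
            ind (len (g i.val ω) (c i ω x) < s ∧
              ¬ (g i.val ω).SameCycle (c i ω x) (c i ω y)) +
          ∑ y, ind ((g i.val ω).SameCycle (c i ω x) (c i ω y)) := by
        rw [cnt_ind, ← sum_add_distrib]
        refine sum_le_sum fun y _ => ?_
        by_cases hy : (g i.val ω).SameCycle (c i ω x) (c i ω y)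
        · rw [ind_of hy]
          have := ind_le_one (blk y = blk x)
          have h2 := mul_nonneg (ind_nonneg (x ≠ y ∧ blk x = blk y))
            (ind_nonneg (len (g i.val ω) (c i ω x) < s ∧
              ¬ (g i.val ω).SameCycle (c i ω x) (c i ω y)))
          linarith
        · rw [ind_of (⟨hx, hy⟩ : len (g i.val ω) (c i ω x) < s ∧
              ¬ (g i.val ω).SameCycle (c i ω x) (c i ω y)), mul_one, ind_of_not hy, add_zero]
          refine ind_mono fun h3 => ⟨?_, h3.symm⟩
          rintro rfl
          exact hy (Perm.SameCycle.refl _ _)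
      have e4 := hbl x
      have e5 : b / 2 ≤ ∑ y, ind (x ≠ y ∧ blk x = blk y) *
            ind (len (g i.val ω) (c i ω x) < s ∧
              ¬ (g i.val ω).SameCycle (c i ω x) (c i ω y)) := by
        rw [← e2] at e3
        linarith
      calc κ * (b / 2) ≤ κ * ∑ y, ind (x ≠ y ∧ blk x = blk y) *
            ind (len (g i.val ω) (c i ω x) < s ∧
              ¬ (g i.val ω).SameCycle (c i ω x) (c i ω y)) := mul_le_mul_of_nonneg_left e5 hκ.le
        _ ≤ _ := by
            rw [mul_sum]
            refine sum_le_sum fun y _ => ?_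
            simp only [hP]
            rw [hw]
            by_cases hxy : x ≠ y ∧ blk x = blk y
            · rw [if_pos hxy]
            · rw [if_neg hxy, ind_of_not hxy, zero_mul, mul_zero, mul_zero]
    · rw [ind_of_not hx, mul_zero]
      refine sum_nonneg fun y _ => mul_nonneg (h.w_nonneg x y) (hP0 x y ω)
  -- upper bound
  have hC2 : evn (a i) W (fun ω => ∑ x, ∑ y, w x y * Q x y ω) ≤
      κ * (5 * s * Fintype.card V) * ev W (fun _ => 1) := by
    have h0 : 0 ≤ κ * (5 * s * Fintype.card V) := by positivity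
    calc evn (a i) W (fun ω => ∑ x, ∑ y, w x y * Q x y ω) ≤
        evn (a i) W (fun _ => κ * (5 * s * Fintype.card V)) := by
          refine evn_mono h.W_nonneg fun ω _ => ?_
          calc ∑ x, ∑ y, w x y * Q x y ω ≤ ∑ x, ∑ y, κ *
                (ind (len (g i.val ω) (c i ω x) < s ∧ (g i.val ω).SameCycle (c i ω x) (c i ω y)) +
                  2 * ind (near (g i.val ω) s (c i ω x) (c i ω y))) := by
                refine sum_le_sum fun x _ => sum_le_sum fun y _ => ?_
                have e0 : 0 ≤ ind (len (g i.val ω) (c i ω x) < s ∧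
                    (g i.val ω).SameCycle (c i ω x) (c i ω y)) +
                  2 * ind (near (g i.val ω) s (c i ω x) (c i ω y)) :=
                  add_nonneg (ind_nonneg _) (mul_nonneg (by norm_num) (ind_nonneg _))
                simp only [hQ]
                rw [hw]
                by_cases hxy : x ≠ y ∧ blk x = blk y
                · rw [if_pos hxy, ind_of hxy, one_mul]
                · rw [if_neg hxy, zero_mul]
                  exact mul_nonneg hκ.le e0
            _ = κ * ∑ u, ∑ v,
                (ind (len (g i.val ω) u < s ∧ (g i.val ω).SameCycle u v) +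
                  2 * ind (near (g i.val ω) s u v)) := by
                rw [← sum_conj (c i ω) (fun u v =>
                  (ind (len (g i.val ω) u < s ∧ (g i.val ω).SameCycle u v) +
                  2 * ind (near (g i.val ω) s u v)))]
                simp only [mul_sum]
            _ = κ * (∑ u, ∑ v, ind (len (g i.val ω) u < s ∧ (g i.val ω).SameCycle u v) +
                  2 * ∑ u, ∑ v, ind (near (g i.val ω) s u v)) := by
                simp only [sum_add_distrib, mul_sum]
            _ ≤ κ * (Fintype.card V * s + 2 * (Fintype.card V * (2 * s))) := by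
                refine mul_le_mul_of_nonneg_left ?_ hκ.le
                have e1 := sum_same hs.le (g i.val ω)
                have e2 := sum_near hn hs.le (g i.val ω)
                linarith
            _ = _ := by ring
      _ ≤ ev W (fun _ => κ * (5 * s * Fintype.card V)) := evn_le_ev h.W_nonneg _ fun _ => h0
      _ = _ := by
          have := ev_const_mul (W := W) (κ * (5 * s * Fintype.card V)) (fun _ => 1)
          rw [← this]
          simp
  have hD : ev W (fun ω => cnt fun v => len (g i.val ω) v < s) ≤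
      2 * evn (a i) W (fun ω => cnt fun v => len (g i.val ω) v < s) := by
    have h1 := ev_le_evn (h.up i) (fun ω => cnt fun v => len (g i.val ω) v < s)
      (fun ω => cnt_nonneg _) (fun ω o => by rw [h.g_indep i i.val le_rfl])
    have h2 : 0 ≤ evn (a i) W (fun ω => cnt fun v => len (g i.val ω) v < s) :=
      sum_nonneg fun ω _ => mul_nonneg (ind_nonneg _) (mul_nonneg (h.W_nonneg ω) (cnt_nonneg _))
    refine h1.trans (mul_le_mul_of_nonneg_right ?_ h2)
    linarith
  rw [evn_const_mul] at hC1
  rw [hsumP] at hB1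
  rw [hsumQ] at hB2
  have hE1 : κ * b / (4 * Θ) * ev W (fun ω => cnt fun v => len (g i.val ω) v < s) ≤
      ev W (slotF (a i) P) := by
    rw [div_mul_eq_mul_div, div_le_iff₀ (by positivity)]
    have e1 : κ * b * ev W (fun ω => cnt fun v => len (g i.val ω) v < s) ≤
        κ * b * (2 * evn (a i) W (fun ω => cnt fun v => len (g i.val ω) v < s)) :=
      mul_le_mul_of_nonneg_left hD (by positivity)
    linarith
  have hE2 : ev W (slotF (a i) Q) ≤ 5 * Θ * κ * s * Fintype.card V * ev W (fun _ => 1) := by
    refine hB2.trans ?_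
    have := mul_le_mul_of_nonneg_left hC2 hΘ0.le
    linarith
  linarith

end

theorem main (hm : S_merge) (hsp : S_split) (hd : S_damage) (hn : S_near) : S_base2 := by
  intro V K ι _ _ _ _ _ Θ W w blk M a g c h hΘ hM s κ b hs hκ hb hsb hw hbl hrate
  have hΘ0 : 0 < Θ := by linarith
  have hM' : (0 : ℝ) < M := Nat.cast_pos.2 hM
  set Z := ev W (fun _ => 1) with hZ
  have hZ0 : 0 ≤ Z := ev_nonneg h.W_nonneg fun _ => zero_le_one
  set S : ℕ → ℝ := fun k => ev W (fun ω => cnt fun v => len (g k ω) v < s) with hS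
  set n : ℝ := (Fintype.card V : ℝ) with hn0
  have hn0' : 0 ≤ n := Nat.cast_nonneg _
  -- sum over the steps
  have h1 : ∑ i : Fin M, κ * b / (4 * Θ) * S i.val ≤
      ∑ i : Fin M, (ev W (fun ω => NS s (g i.val ω) - NS s (g (i.val + 1) ω)) +
        5 * Θ * κ * s * n * Z) :=
    sum_le_sum fun i _ => step_bound hm hsp hd hn h hΘ hs hκ hb hsb hw hbl hrate i
  have h2 : ∑ i : Fin M, ev W (fun ω => NS s (g i.val ω) - NS s (g (i.val + 1) ω)) ≤ n * Z := by
    rw [← ev_sum, hZ, ← ev_const_mul]
    refine ev_mono h.W_nonneg fun ω _ => ?_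
    rw [Fin.sum_univ_eq_sum_range (fun i => NS s (g i ω) - NS s (g (i + 1) ω)) M,
      Finset.sum_range_sub' (fun i => NS s (g i ω)) M, mul_one]
    have e1 := NS_le s (g 0 ω)
    have e2 := NS_nonneg s (g M ω)
    linarith
  rw [sum_add_distrib, sum_const, card_univ, Fintype.card_fin, nsmul_eq_mul, ← mul_sum] at h1
  -- damage
  have hdam : ∀ i : Fin M, S (i.val + 1) ≤ S i.val + 4 * Θ * κ * s ^ 2 * n * Z := by
    intro i
    have e1 := damage h hd hn hΘ0.le i s hs.le κ 0 hκ.le (fun _ _ => 0) (fun _ _ => le_rfl)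
      (by
        intro x y
        rw [hw, add_zero]
        split_ifs
        · exact le_rfl
        · exact hκ.le) (by simp)
    have e2 : S (i.val + 1) ≤ ev W (fun ω => (cnt fun v => len (g i.val ω) v < s) +
        cnt fun v => s ≤ len (g i.val ω) v ∧ len (g (i.val + 1) ω) v < s) := by
      refine ev_mono h.W_nonneg fun ω _ => ?_
      rw [cnt_ind, cnt_ind, cnt_ind, ← sum_add_distrib]
      refine sum_le_sum fun v _ => ?_
      by_cases h3 : len (g i.val ω) v < s
      · rw [ind_of h3]
        have e3 := ind_le_one (len (g (i.val + 1) ω) v < s)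
        have e4 := ind_nonneg (s ≤ len (g i.val ω) v ∧ len (g (i.val + 1) ω) v < s)
        linarith
      · rw [ind_of_not h3, zero_add]
        exact ind_mono fun h4 => ⟨not_lt.1 h3, h4⟩
    rw [ev_add] at e2
    have e3 : Θ * (2 * s) * (n * (2 * s * κ + 0)) * Z = 4 * Θ * κ * s ^ 2 * n * Z := by ring
    rw [← hZ, ← hn0, e3] at e1
    have e4 : S i.val = ev W (fun ω => (cnt fun v => len (g i.val ω) v < s)) := rfl
    linarith
  have hD0 : 0 ≤ 4 * Θ * κ * s ^ 2 * n * Z := by positivity
  have hchain : ∀ j k : ℕ, k + j = M → S M ≤ S k + j * (4 * Θ * κ * s ^ 2 * n * Z) := by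
    intro j
    induction j with
    | zero =>
      intro k hk
      obtain rfl : k = M := by omega
      simp
    | succ j ih =>
      intro k hk
      have e1 := ih (k + 1) (by omega)
      have e2 := hdam ⟨k, by omega⟩
      simp only at e2
      push_cast
      linarith
  have h3 : ∀ i : Fin M, S M - M * (4 * Θ * κ * s ^ 2 * n * Z) ≤ S i.val := by
    intro i
    have e1 := hchain (M - i.val) i.val (by have := i.isLt; omega)
    have e2 : ((M - i.val : ℕ) : ℝ) ≤ M := by exact_mod_cast Nat.sub_le _ _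
    have e3 := mul_le_mul_of_nonneg_right e2 hD0
    linarith
  have h4 : M * (S M - M * (4 * Θ * κ * s ^ 2 * n * Z)) ≤ ∑ i : Fin M, S i.val := by
    calc M * (S M - M * (4 * Θ * κ * s ^ 2 * n * Z)) =
        ∑ _i : Fin M, (S M - M * (4 * Θ * κ * s ^ 2 * n * Z)) := by
          rw [sum_const, card_univ, Fintype.card_fin, nsmul_eq_mul]
      _ ≤ _ := sum_le_sum fun i _ => h3 i
  have h5 : κ * b / (4 * Θ) * (M * (S M - M * (4 * Θ * κ * s ^ 2 * n * Z))) ≤
      n * Z + M * (5 * Θ * κ * s * n * Z) :=
    (mul_le_mul_of_nonneg_left h4 (by positivity)).trans (h1.trans (by linarith))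
  have h6 : S M ≤ (n * Z + M * (5 * Θ * κ * s * n * Z)) / (κ * b / (4 * Θ) * M) +
      M * (4 * Θ * κ * s ^ 2 * n * Z) := by
    rw [← sub_le_iff_le_add, le_div_iff₀ (by positivity)]
    calc _ = κ * b / (4 * Θ) * (M * (S M - M * (4 * Θ * κ * s ^ 2 * n * Z))) := by ring
      _ ≤ _ := h5
  refine h6.trans (le_of_eq ?_)
  field_simp
  ring

/-- unconditional version -/
theorem main' : S_base2 :=
  main Pool.Agent.W333.LR.main_merge Pool.Agent.W333.LR.main_split
    (Pool.Agent.W248.LR.main_damage Pool.Agent.W333.LR.main_merge Pool.Agent.W333.LR.main_split)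
    Pool.Agent.W248.LR.main_near

end Pool.Agent.W613.LR.SB2
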