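import Pool.Agent.W613.LR.Cyc
import Pool.Agent.W805.LR.Basic

/-!
# LR2-ST2: the stage lemma without block invariance
-/

set_option autoImplicit false
set_option linter.unusedSectionVars false

namespace Pool.Agent.W613.LR.ST2

open Finset Equiv Pool.Agent.W815.LR Pool.Agent.W613.LR
open Pool.Agent.W805.LR hiding ev_add ev_nonneg ev_mono ev_const cnt_nonneg cnt_mono one_le_len cnt_eq

section

variable {V K ι : Type} [Fintype V] [DecidableEq V] [Fintype K] [DecidableEq K] [DecidableEq ι]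
  {Θ : ℝ} {W : (K → Option (V × V)) → ℝ} {w : V → V → ℝ} {M : ℕ} {a : Fin M → K}
  {g : ℕ → (K → Option (V × V)) → Perm V} {c : Fin M → (K → Option (V × V)) → Perm V}

/-- good points whose class (of `β`) has few good points -/
def nonrich (β : V → ι) (s δ : ℝ) (p : Perm V) (u : V) : Prop :=
  s ≤ len p u ∧ (cnt fun z => β z = β u ∧ s ≤ len p z) < δ * cnt fun z => β z = β u

theorem nonrich_card (β : V → ι) (s : ℝ) {δ : ℝ} (hδ : 0 ≤ δ) (p : Perm V) :
    cnt (nonrich β s δ p) ≤ δ * Fintype.card V := by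
  have h := nonrich_le β (fun u => s ≤ len p u) (δ / 2) (by linarith)
  have e : 2 * (δ / 2) = δ := by ring
  rw [e] at h
  exact h

/-- more than half of the cycle is nonrich -/
def bad (β : V → ι) (s δ : ℝ) (p : Perm V) (v : V) : Prop :=
  len p v < 2 * cnt fun u => p.SameCycle v u ∧ nonrich β s δ p u

theorem bad_card (β : V → ι) (s : ℝ) {δ : ℝ} (hδ : 0 ≤ δ) (p : Perm V) :
    cnt (bad β s δ p) ≤ 2 * δ * Fintype.card V := by
  have h1 : ∀ v, ind (bad β s δ p v) ≤
      ∑ u, 2 * ind (nonrich β s δ p u) * (ind (p.SameCycle u v) / len p u) := by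
    intro v
    have h2 : ∑ u, 2 * ind (nonrich β s δ p u) * (ind (p.SameCycle u v) / len p u) =
        2 * (cnt fun u => p.SameCycle v u ∧ nonrich β s δ p u) / len p v := by
      rw [cnt_ind, mul_sum, sum_div]
      refine sum_congr rfl fun u _ => ?_
      by_cases h : p.SameCycle u v
      · rw [ind_of h, ind_and, ind_of h.symm, len_same h]
        ring
      · rw [ind_of_not h, ind_and, ind_of_not (fun h' : p.SameCycle v u => h h'.symm)]
        ring
    rw [h2]
    by_cases hb : bad β s δ p v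
    · rw [ind_of hb, le_div_iff₀ (len_pos p v), one_mul]
      exact le_of_lt hb
    · rw [ind_of_not hb]
      exact div_nonneg (mul_nonneg (by norm_num) (Pool.Agent.W815.LR.cnt_nonneg _)) (len_pos p v).le
  calc cnt (bad β s δ p) = ∑ v, ind (bad β s δ p v) := rfl
    _ ≤ ∑ v, ∑ u, 2 * ind (nonrich β s δ p u) * (ind (p.SameCycle u v) / len p u) :=
        sum_le_sum fun v _ => h1 v
    _ = ∑ u, 2 * ind (nonrich β s δ p u) := by
        rw [sum_comm]
        refine sum_congr rfl fun u _ => ?_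
        rw [← mul_sum, ← sum_div, ← len_eq, div_self (len_pos p u).ne', mul_one]
    _ = 2 * cnt (nonrich β s δ p) := by rw [cnt_ind, mul_sum]
    _ ≤ 2 * (δ * Fintype.card V) := by
        have := nonrich_card β s hδ p
        linarith
    _ = _ := by ring

/-- alive up to time `i` -/
noncomputable def AA (g : ℕ → (K → Option (V × V)) → Perm V) (s s' : ℝ) (i : ℕ) (v : V)
    (ω : K → Option (V × V)) : ℝ :=
  ind (∀ j, j ≤ i → s ≤ len (g j ω) v ∧ len (g j ω) v < s')

theorem AA_nonneg (s s' : ℝ) (i : ℕ) (v : V) (ω : K → Option (V × V)) : 0 ≤ AA g s s' i v ω :=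
  ind_nonneg _

theorem AA_le_one (s s' : ℝ) (i : ℕ) (v : V) (ω : K → Option (V × V)) : AA g s s' i v ω ≤ 1 :=
  ind_le_one _

theorem AA_succ_le (s s' : ℝ) (i : ℕ) (v : V) (ω : K → Option (V × V)) :
    AA g s s' (i + 1) v ω ≤ AA g s s' i v ω :=
  ind_mono fun h j hj => h j (by omega)

/-- number of good rich partners of a cycle -/
theorem partners {β : V → ι} {s s' δ b : ℝ} (hs : 0 < s) (hδ : 0 < δ)
    (hsb : s' ≤ δ * b / 2) (hβ : ∀ u, b ≤ cnt fun z => β z = β u) (p : Perm V) {v : V}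
    (h1 : s ≤ len p v) (h2 : len p v < s') (h3 : ¬ bad β s δ p v) :
    s * (δ * b) / 4 ≤ ∑ x, ∑ y, ind (β x = β y ∧ p.SameCycle v x ∧ s ≤ len p y ∧
      ¬ p.SameCycle v y) := by
  have hb0 : 0 < δ * b := by linarith
  have h4 : s / 2 ≤ cnt fun u => p.SameCycle v u ∧ ¬ nonrich β s δ p u := by
    have e1 : len p v = (cnt fun u => p.SameCycle v u ∧ nonrich β s δ p u) +
        cnt fun u => p.SameCycle v u ∧ ¬ nonrich β s δ p u := by
      rw [len_eq, cnt_ind, cnt_ind, ← sum_add_distrib]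
      refine sum_congr rfl fun u _ => ?_
      rw [ind_and, ind_and, ind_not]
      ring
    have e2 : 2 * (cnt fun u => p.SameCycle v u ∧ nonrich β s δ p u) ≤ len p v := not_lt.1 h3
    linarith
  have h5 : ∀ x, δ * b / 2 * ind (p.SameCycle v x ∧ ¬ nonrich β s δ p x) ≤
      ∑ y, ind (β x = β y ∧ p.SameCycle v x ∧ s ≤ len p y ∧ ¬ p.SameCycle v y) := by
    intro x
    by_cases hx : p.SameCycle v x ∧ ¬ nonrich β s δ p x
    · rw [ind_of hx, mul_one]
      obtain ⟨hx1, hx2⟩ := hx
      have e1 : δ * b ≤ cnt fun z => β z = β x ∧ s ≤ len p z := by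
        by_contra hc
        refine hx2 ⟨by rw [← len_same hx1]; exact h1, lt_of_lt_of_le (not_le.1 hc) ?_⟩
        exact mul_le_mul_of_nonneg_left (hβ x) hδ.le
      have e2 : (cnt fun z => β z = β x ∧ s ≤ len p z) ≤
          ∑ y, ind (β x = β y ∧ p.SameCycle v x ∧ s ≤ len p y ∧ ¬ p.SameCycle v y) + len p v := by
        rw [cnt_ind, len_eq, ← sum_add_distrib]
        refine sum_le_sum fun y _ => ?_
        by_cases hy : p.SameCycle v y
        · rw [ind_of hy]
          have e3 := ind_le_one (β y = β x ∧ s ≤ len p y)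
          have e4 := ind_nonneg (β x = β y ∧ p.SameCycle v x ∧ s ≤ len p y ∧ ¬ p.SameCycle v y)
          linarith
        · rw [ind_of_not hy, add_zero]
          exact ind_mono fun h6 => ⟨h6.1.symm, hx1, h6.2, hy⟩
      linarith
    · rw [ind_of_not hx, mul_zero]
      exact sum_nonneg fun y _ => ind_nonneg _
  calc s * (δ * b) / 4 = δ * b / 2 * (s / 2) := by ring
    _ ≤ δ * b / 2 * cnt fun u => p.SameCycle v u ∧ ¬ nonrich β s δ p u :=
        mul_le_mul_of_nonneg_left h4 (by linarith)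
    _ = ∑ x, δ * b / 2 * ind (p.SameCycle v x ∧ ¬ nonrich β s δ p x) := by rw [cnt_ind, mul_sum]
    _ ≤ _ := sum_le_sum fun x _ => h5 x

theorem cnt_conj (q : Perm V) (P : V → Prop) : (cnt fun y => P (q y)) = cnt P := by
  rw [cnt_ind, cnt_ind]
  exact Equiv.sum_comp q (fun v => ind (P v))

/-- one step for one point -/
theorem alive_step (h1 : S_merge) (h : IsStage Θ W w (fun _ : V => ()) M a g c) (hΘ : 1 ≤ Θ)
    {s s' δ κ b : ℝ} {blk : V → ι} (hs : 0 < s) (hss : s ≤ s') (hs2 : s' ≤ 2 * s)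
    (hδ : 0 < δ) (hκ : 0 ≤ κ) (hw : ∀ x y, w x y = if x ≠ y ∧ blk x = blk y then κ else 0)
    (hbl : ∀ v, b ≤ cnt fun u => blk u = blk v) (hsb : s' ≤ δ * b / 2)
    (hrate : (Θ * ∑ x, ∑ y, w x y) ≤ 1) (i : Fin M) (v : V) :
    ev W (AA g s s' (i.val + 1) v) ≤ ev W (AA g s s' i.val v) -
      κ * s * δ * b / (8 * Θ) * ev W (fun ω => AA g s s' i.val v ω *
        (1 - ind (bad (fun u => blk ((c i ω)⁻¹ u)) s δ (g i.val ω) v))) := by
  have hΘ0 : 0 < Θ := by linarith
  have hb0 : 0 < δ * b := by linarith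
  set U := AA g s s' i.val v with hU
  set E : V → V → (K → Option (V × V)) → Prop := fun x y ω =>
    (g i.val ω).SameCycle v (c i ω x) ∧ s ≤ len (g i.val ω) (c i ω y) ∧
      ¬ (g i.val ω).SameCycle v (c i ω y) with hE
  set F : V → V → (K → Option (V × V)) → ℝ := fun x y ω => U ω * ind (E x y ω) with hF
  set G : (K → Option (V × V)) → ℝ := fun ω => U ω *
    (1 - ind (bad (fun u => blk ((c i ω)⁻¹ u)) s δ (g i.val ω) v)) with hG
  have hU0 : ∀ ω, 0 ≤ U ω := fun ω => ind_nonneg _
  have hF0 : ∀ x y ω, 0 ≤ F x y ω := fun x y ω => mul_nonneg (hU0 ω) (ind_nonneg _)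
  have hG0 : ∀ ω, 0 ≤ G ω := fun ω => mul_nonneg (hU0 ω) (sub_nonneg.2 (ind_le_one _))
  have hUi : ∀ ω o, U (Function.update ω (a i) o) = U ω := by
    intro ω o
    simp only [hU, AA]
    refine ind_congr ?_
    refine forall_congr' fun j => ?_
    refine imp_congr_right fun hj => ?_
    rw [h.g_indep i j hj]
  have hFi : ∀ x y ω o, F x y (Function.update ω (a i) o) = F x y ω := by
    intro x y ω o
    simp only [hF, hE, hUi, h.g_indep i i.val le_rfl, h.c_indep i]
  have hGi : ∀ ω o, G (Function.update ω (a i) o) = G ω := by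
    intro ω o
    simp only [hG, hUi, h.g_indep i i.val le_rfl, h.c_indep i]
  -- first pointwise inequality
  have hp1 : ∀ ω, W ω ≠ 0 → AA g s s' (i.val + 1) v ω ≤ U ω - slotF (a i) F ω := by
    intro ω _
    have hle : slotF (a i) F ω ≤ U ω := by
      rcases ho : ω (a i) with _ | ⟨x, y⟩
      · rw [slotF_none ho]
        exact hU0 ω
      · rw [slotF_some ho]
        exact mul_le_of_le_one_right (hU0 ω) (ind_le_one _)
    by_cases hA : ∀ j, j ≤ i.val + 1 → s ≤ len (g j ω) v ∧ len (g j ω) v < s'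
    · have hUt : U ω = 1 := ind_of fun j hj => hA j (by omega)
      have h0 : slotF (a i) F ω = 0 := by
        rcases ho : ω (a i) with _ | ⟨x, y⟩
        · exact slotF_none ho
        · rw [slotF_some ho]
          simp only [hF]
          rw [ind_of_not, mul_zero]
          rintro ⟨h4, h6, h7⟩
          have h8 := (hA (i.val + 1) le_rfl).2
          rw [step_some h i ho] at h8
          have h9 : ¬ (g i.val ω).SameCycle (c i ω x) (c i ω y) := fun hh => h7 (h4.trans hh)
          have h10 := (h1 V (g i.val ω) (c i ω x) (c i ω y) h9).1 v (Or.inl h4.symm)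
          rw [h10, ← len_same h4] at h8
          have h11 := (hA i.val (by omega)).1
          linarith
      rw [hUt, h0, sub_zero]
      exact ind_le_one _
    · have : AA g s s' (i.val + 1) v ω = 0 := ind_of_not hA
      rw [this]
      linarith
  -- second pointwise inequality
  have hp2 : ∀ ω, W ω ≠ 0 → κ * (s * (δ * b) / 4) * G ω ≤ ∑ x, ∑ y, w x y * F x y ω := by
    intro ω _
    have hrhs : 0 ≤ ∑ x, ∑ y, w x y * F x y ω :=
      sum_nonneg fun x _ => sum_nonneg fun y _ => mul_nonneg (h.w_nonneg x y) (hF0 x y ω)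
    by_cases hA : ∀ j, j ≤ i.val → s ≤ len (g j ω) v ∧ len (g j ω) v < s'
    · have hUt : U ω = 1 := ind_of hA
      by_cases hbad : bad (fun u => blk ((c i ω)⁻¹ u)) s δ (g i.val ω) v
      · have : G ω = 0 := by
          simp only [hG]
          rw [ind_of hbad, sub_self, mul_zero]
        rw [this, mul_zero]
        exact hrhs
      · have hG1 : G ω = 1 := by
          simp only [hG]
          rw [ind_of_not hbad, hUt]
          norm_num
        rw [hG1, mul_one]
        have hβ : ∀ u, b ≤ cnt fun z => (fun u => blk ((c i ω)⁻¹ u)) z =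
            (fun u => blk ((c i ω)⁻¹ u)) u := by
          intro u
          simp only
          have e1 := cnt_conj (c i ω)⁻¹ (fun z => blk z = blk ((c i ω)⁻¹ u))
          rw [e1]
          exact hbl _
        obtain ⟨ha1, ha2⟩ := hA i.val le_rfl
        have h4 := partners hs hδ hsb hβ (g i.val ω) ha1 ha2 hbad
        refine (mul_le_mul_of_nonneg_left h4 hκ).trans ?_
        rw [← Equiv.sum_comp (c i ω), mul_sum]
        refine sum_le_sum fun x _ => ?_
        rw [← Equiv.sum_comp (c i ω), mul_sum]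
        refine sum_le_sum fun y _ => ?_
        have hinv : ∀ z, (c i ω)⁻¹ (c i ω z) = z := fun z => by simp
        simp only [hF, hUt, one_mul, hinv]
        by_cases hExy : blk x = blk y ∧ (g i.val ω).SameCycle v (c i ω x) ∧
            s ≤ len (g i.val ω) (c i ω y) ∧ ¬ (g i.val ω).SameCycle v (c i ω y)
        · rw [ind_of hExy, ind_of hExy.2, mul_one, mul_one, hw, if_pos]
          refine ⟨?_, hExy.1⟩
          rintro rfl
          exact hExy.2.2.2 hExy.2.1
        · rw [ind_of_not hExy, mul_zero]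
          exact mul_nonneg (h.w_nonneg x y) (ind_nonneg _)
    · have hUf : U ω = 0 := ind_of_not hA
      have : G ω = 0 := by
        simp only [hG]
        rw [hUf, zero_mul]
      rw [this, mul_zero]
      exact hrhs
  have h4 : ev W (AA g s s' (i.val + 1) v) ≤ ev W U - ev W (slotF (a i) F) := by
    rw [← ev_sub]
    exact ev_mono h.W_nonneg hp1
  have h5 : κ * (s * (δ * b) / 4) * evn (a i) W G ≤ ∑ x, ∑ y, w x y * evn (a i) W (F x y) := by
    have h6 : ∑ x, ∑ y, w x y * evn (a i) W (F x y) =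
        evn (a i) W (fun ω => ∑ x, ∑ y, w x y * F x y ω) := by
      rw [evn_sum]
      refine sum_congr rfl fun x _ => ?_
      rw [evn_sum]
      exact sum_congr rfl fun y _ => (evn_const_mul _ _).symm
    rw [h6, ← evn_const_mul]
    exact evn_mono h.W_nonneg hp2
  have h6 : ∑ x, ∑ y, w x y * evn (a i) W (F x y) ≤ Θ * ev W (slotF (a i) F) :=
    slot_low (h.low i) F hF0 hFi
  have h7 : ev W G ≤ 2 * evn (a i) W G := by
    have e1 := ev_le_evn (h.up i) G hG0 hGi
    have e2 : 0 ≤ evn (a i) W G :=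
      sum_nonneg fun ω _ => mul_nonneg (ind_nonneg _) (mul_nonneg (h.W_nonneg ω) (hG0 ω))
    refine e1.trans (mul_le_mul_of_nonneg_right ?_ e2)
    linarith
  have h9 : κ * s * δ * b / (8 * Θ) * ev W G ≤ ev W (slotF (a i) F) := by
    have hk : 0 ≤ κ * (s * (δ * b) / 4) := by positivity
    have h10 : κ * (s * (δ * b) / 4) * (ev W G / 2) ≤ Θ * ev W (slotF (a i) F) := by
      have h11 : κ * (s * (δ * b) / 4) * (ev W G / 2) ≤ κ * (s * (δ * b) / 4) * evn (a i) W G :=
        mul_le_mul_of_nonneg_left (by linarith) hk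
      linarith
    have h12 : κ * s * δ * b / (8 * Θ) * ev W G =
        (κ * (s * (δ * b) / 4) * (ev W G / 2)) / Θ := by
      field_simp
      ring
    rw [h12, div_le_iff₀ hΘ0]
    linarith
  linarith

theorem no_damage {p : ℕ → Perm V} {s : ℝ} {v : V} {M : ℕ}
    (h : ∀ i, i < M → ¬ (s ≤ len (p i) v ∧ len (p (i + 1)) v < s)) {i j : ℕ} (hij : i ≤ j)
    (hj : j ≤ M) (hi : s ≤ len (p i) v) : s ≤ len (p j) v := by
  induction j, hij using Nat.le_induction with
  | base => exact hi
  | succ j hij ih =>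
    by_contra hc
    exact h j (by omega) ⟨ih (by omega), not_le.1 hc⟩

theorem pointwise (p : ℕ → Perm V) (s s' : ℝ) (M : ℕ) (v : V) :
    ind (s ≤ len (p 0) v ∧ len (p M) v < s') ≤
      ind (∀ j, j ≤ M → s ≤ len (p j) v ∧ len (p j) v < s') +
      (∑ i ∈ range M, ind (s ≤ len (p i) v ∧ len (p (i + 1)) v < s) +
      ∑ i ∈ range M, ind (s' ≤ len (p i) v ∧ len (p (i + 1)) v < s')) := by
  have t1 : 0 ≤ ∑ i ∈ range M, ind (s ≤ len (p i) v ∧ len (p (i + 1)) v < s) :=
    sum_nonneg fun _ _ => ind_nonneg _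
  have t2 : 0 ≤ ∑ i ∈ range M, ind (s' ≤ len (p i) v ∧ len (p (i + 1)) v < s') :=
    sum_nonneg fun _ _ => ind_nonneg _
  have t3 := ind_nonneg (∀ j, j ≤ M → s ≤ len (p j) v ∧ len (p j) v < s')
  by_cases h0 : s ≤ len (p 0) v ∧ len (p M) v < s'
  swap
  · rw [ind_of_not h0]
    linarith
  rw [ind_of h0]
  by_cases hd1 : ∃ i, i < M ∧ (s ≤ len (p i) v ∧ len (p (i + 1)) v < s)
  · obtain ⟨i, hi, h1⟩ := hd1
    have h2 : ind (s ≤ len (p i) v ∧ len (p (i + 1)) v < s) ≤
        ∑ i ∈ range M, ind (s ≤ len (p i) v ∧ len (p (i + 1)) v < s) :=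
      single_le_sum (f := fun i => ind (s ≤ len (p i) v ∧ len (p (i + 1)) v < s))
        (fun _ _ => ind_nonneg _) (mem_range.2 hi)
    rw [ind_of h1] at h2
    linarith
  by_cases hd2 : ∃ i, i < M ∧ (s' ≤ len (p i) v ∧ len (p (i + 1)) v < s')
  · obtain ⟨i, hi, h1⟩ := hd2
    have h2 : ind (s' ≤ len (p i) v ∧ len (p (i + 1)) v < s') ≤
        ∑ i ∈ range M, ind (s' ≤ len (p i) v ∧ len (p (i + 1)) v < s') :=
      single_le_sum (f := fun i => ind (s' ≤ len (p i) v ∧ len (p (i + 1)) v < s'))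
        (fun _ _ => ind_nonneg _) (mem_range.2 hi)
    rw [ind_of h1] at h2
    linarith
  push Not at hd1 hd2
  have hn1 : ∀ i, i < M → ¬ (s ≤ len (p i) v ∧ len (p (i + 1)) v < s) := fun i hi h =>
    absurd h.2 (not_lt.2 (hd1 i hi h.1))
  have hn2 : ∀ i, i < M → ¬ (s' ≤ len (p i) v ∧ len (p (i + 1)) v < s') := fun i hi h =>
    absurd h.2 (not_lt.2 (hd2 i hi h.1))
  have hl1 : ∀ i, i ≤ M → s ≤ len (p i) v := fun i hi => no_damage hn1 (Nat.zero_le i) hi h0.1
  have hl2 : ∀ i, i ≤ M → len (p i) v < s' := by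
    intro i hi
    by_contra hc
    exact absurd h0.2 (not_lt.2 (no_damage hn2 hi le_rfl (not_lt.1 hc)))
  rw [ind_of (fun j hj => ⟨hl1 j hj, hl2 j hj⟩ :
    ∀ j, j ≤ M → s ≤ len (p j) v ∧ len (p j) v < s')]
  linarith

end

theorem main (hm : S_merge) (hd : S_damage) (hn : S_near) : S_stage2 := by
  intro V K ι _ _ _ _ _ Θ W w blk M a g c h hΘ s s' δ κ b hs hss hs2 hδ hκ hw hbl hsb hrate
  have hΘ0 : 0 < Θ := by linarith
  have hs' : 0 < s' := by linarith
  have hb0 : 0 < δ * b := by linarith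
  set Z := ev W (fun _ => 1) with hZ
  have hZ0 : 0 ≤ Z := ev_nonneg h.W_nonneg fun _ => zero_le_one
  set n : ℝ := (Fintype.card V : ℝ) with hn0
  have hn0' : 0 ≤ n := Nat.cast_nonneg _
  set q : ℝ := κ * s * δ * b / (8 * Θ) with hq
  have hq0 : 0 ≤ q := by
    have e : q = κ * s * (δ * b) / (8 * Θ) := by rw [hq]; ring
    rw [e]
    positivity
  set A : ℕ → ℝ := fun i => ev W (fun ω => ∑ v, AA g s s' i v ω) with hA
  have hAmono : ∀ i, A (i + 1) ≤ A i := fun i =>
    ev_mono h.W_nonneg fun ω _ => sum_le_sum fun v _ => AA_succ_le s s' i v ω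
  -- one step
  have hstep : ∀ i : Fin M, A (i.val + 1) ≤ A i.val - q * (A i.val - 2 * δ * n * Z) := by
    intro i
    have e1 : A (i.val + 1) ≤ A i.val - q * ev W (fun ω => ∑ v, AA g s s' i.val v ω *
        (1 - ind (bad (fun u => blk ((c i ω)⁻¹ u)) s δ (g i.val ω) v))) := by
      simp only [hA]
      rw [ev_sum, ev_sum, ev_sum, mul_sum, ← sum_sub_distrib]
      exact sum_le_sum fun v _ =>
        alive_step hm h hΘ hs hss hs2 hδ hκ hw hbl hsb hrate i v
    have e2 : A i.val - 2 * δ * n * Z ≤ ev W (fun ω => ∑ v, AA g s s' i.val v ω *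
        (1 - ind (bad (fun u => blk ((c i ω)⁻¹ u)) s δ (g i.val ω) v))) := by
      rw [hZ, ← ev_const_mul]
      simp only [hA]
      rw [← ev_sub]
      refine ev_mono h.W_nonneg fun ω _ => ?_
      have e3 := bad_card (fun u => blk ((c i ω)⁻¹ u)) s hδ.le (g i.val ω)
      rw [cnt_ind] at e3
      rw [mul_one, sub_le_iff_le_add]
      refine le_trans ?_ (add_le_add le_rfl e3)
      rw [← sum_add_distrib]
      refine sum_le_sum fun v _ => ?_
      have e4 := AA_le_one (g := g) s s' i.val v ω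
      have e5 := ind_nonneg (bad (fun u => blk ((c i ω)⁻¹ u)) s δ (g i.val ω) v)
      nlinarith
    have e3 := mul_le_mul_of_nonneg_left e2 hq0
    linarith
  -- induction
  have hind : ∀ i : ℕ, i ≤ M → A i ≤ Real.exp (-q) ^ i * (n * Z) + 2 * δ * n * Z := by
    intro i
    induction i with
    | zero =>
      intro _
      rw [pow_zero, one_mul]
      have e1 : A 0 ≤ n * Z := by
        rw [hZ, ← ev_const_mul]
        refine ev_mono h.W_nonneg fun ω _ => ?_
        rw [mul_one]
        calc ∑ v, AA g s s' 0 v ω ≤ ∑ _v : V, (1 : ℝ) := sum_le_sum fun v _ => AA_le_one _ _ _ _ _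
          _ = n := by simp [hn0]
      have e2 : 0 ≤ 2 * δ * n * Z := by positivity
      linarith
    | succ i ih =>
      intro hi
      have e1 := ih (by omega)
      have e2 := hstep ⟨i, hi⟩
      simp only at e2
      have hexp : 0 < Real.exp (-q) := Real.exp_pos _
      rcases le_or_gt (A i) (2 * δ * n * Z) with h3 | h3
      · have e3 := hAmono i
        have e4 : 0 ≤ Real.exp (-q) ^ (i + 1) * (n * Z) := by positivity
        linarith
      · have e3 : 1 - q ≤ Real.exp (-q) := Real.one_sub_le_exp_neg q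
        have e4 : (1 - q) * (A i - 2 * δ * n * Z) ≤ Real.exp (-q) * (A i - 2 * δ * n * Z) :=
          mul_le_mul_of_nonneg_right e3 (by linarith)
        have e5 : Real.exp (-q) * (A i - 2 * δ * n * Z) ≤
            Real.exp (-q) * (Real.exp (-q) ^ i * (n * Z)) :=
          mul_le_mul_of_nonneg_left (by linarith) hexp.le
        rw [pow_succ']
        linarith
  -- damage
  have hdam : ∀ r, 0 ≤ r → r ≤ s' → ev W (fun ω => ∑ i ∈ range M,
      cnt fun v => r ≤ len (g i ω) v ∧ len (g (i + 1) ω) v < r) ≤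
      M * (4 * Θ * κ * s' ^ 2 * n * Z) := by
    intro r hr hrs
    rw [ev_sum]
    calc ∑ i ∈ range M, ev W (fun ω => cnt fun v => r ≤ len (g i ω) v ∧ len (g (i + 1) ω) v < r)
        ≤ ∑ i ∈ range M, 4 * Θ * κ * s' ^ 2 * n * Z := by
          refine sum_le_sum fun i hi => ?_
          have e1 := damage h hd hn hΘ0.le ⟨i, mem_range.1 hi⟩ r hr κ 0 hκ (fun _ _ => 0)
            (fun _ _ => le_rfl)
            (by
              intro x y
              rw [hw, add_zero]
              split_ifs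
              · exact le_rfl
              · exact hκ) (by simp)
          refine e1.trans ?_
          rw [← hZ, ← hn0]
          have e2 : Θ * (2 * r) * (n * (2 * r * κ + 0)) * Z = 4 * Θ * κ * n * Z * r ^ 2 := by ring
          rw [e2]
          have e3 : r ^ 2 ≤ s' ^ 2 := pow_le_pow_left₀ hr hrs 2
          calc 4 * Θ * κ * n * Z * r ^ 2 ≤ 4 * Θ * κ * n * Z * s' ^ 2 :=
                mul_le_mul_of_nonneg_left e3 (by positivity)
            _ = _ := by ring
      _ = _ := by rw [sum_const, card_range, nsmul_eq_mul]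
  have hmain : ev W (fun ω => cnt fun v => s ≤ len (g 0 ω) v ∧ len (g M ω) v < s') ≤
      A M + (ev W (fun ω => ∑ i ∈ range M,
        cnt fun v => s ≤ len (g i ω) v ∧ len (g (i + 1) ω) v < s) +
      ev W (fun ω => ∑ i ∈ range M,
        cnt fun v => s' ≤ len (g i ω) v ∧ len (g (i + 1) ω) v < s')) := by
    simp only [hA]
    rw [← ev_add, ← ev_add]
    refine ev_mono h.W_nonneg fun ω _ => ?_
    have h4 : ∀ r : ℝ, ∑ i ∈ range M, (cnt fun v => r ≤ len (g i ω) v ∧ len (g (i + 1) ω) v < r) =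
        ∑ v, ∑ i ∈ range M, ind (r ≤ len (g i ω) v ∧ len (g (i + 1) ω) v < r) := fun r => sum_comm
    rw [h4, h4, cnt_ind, ← sum_add_distrib, ← sum_add_distrib]
    exact sum_le_sum fun v _ => pointwise (fun i => g i ω) s s' M v
  have e1 := hdam s hs.le hss
  have e2 := hdam s' hs'.le le_rfl
  have e3 := hind M le_rfl
  rw [← Real.exp_nat_mul] at e3
  have e4 : (M : ℝ) * -q = -(M * κ * s * δ * b / (8 * Θ)) := by rw [hq]; ring
  rw [e4] at e3
  have e5 : n * (2 * δ + Real.exp (-(M * κ * s * δ * b / (8 * Θ))) +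
        8 * Θ * M * κ * s' ^ 2) * Z =
      Real.exp (-(M * κ * s * δ * b / (8 * Θ))) * (n * Z) + 2 * δ * n * Z +
        (M * (4 * Θ * κ * s' ^ 2 * n * Z) + M * (4 * Θ * κ * s' ^ 2 * n * Z)) := by ring
  rw [e5]
  linarith

/-- unconditional version -/
theorem main' : S_stage2 :=
  main Pool.Agent.W333.LR.main_merge
    (Pool.Agent.W248.LR.main_damage Pool.Agent.W333.LR.main_merge Pool.Agent.W333.LR.main_split)
    Pool.Agent.W248.LR.main_near

end Pool.Agent.W613.LR.ST2
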